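import Mathlib
import Pool.Agent.Y892.DP.Stm2

/-!
# Project DP, task DP-JOR: Möbius inversion for pairs
-/

set_option autoImplicit false

namespace Pool.Agent.Y983.DP

open Finset Pool.Agent.Y892.DP

/-- the multiples of `d` below `m` -/
lemma sum_mult {m d : ℕ} (hm : 0 < m) (hd : d ∣ m) (f : ℕ → ℂ) :
    ∑ i ∈ range (m / d), f (d * i) = ∑ i ∈ range m, if d ∣ i then f i else 0 := by
  have hd0 : 0 < d := Nat.pos_of_dvd_of_pos hd hm
  rw [← sum_filter]
  have h : (range m).filter (fun i => d ∣ i) = (range (m / d)).image (fun i => d * i) := by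
    ext x
    simp only [mem_filter, mem_range, mem_image]
    constructor
    · rintro ⟨h1, k, rfl⟩
      exact ⟨k, (Nat.lt_div_iff_mul_lt' hd k).2 h1, rfl⟩
    · rintro ⟨k, h1, rfl⟩
      exact ⟨(Nat.lt_div_iff_mul_lt' hd k).1 h1, dvd_mul_right d k⟩
  rw [h, sum_image]
  intro x _ y _ hxy
  exact Nat.eq_of_mul_eq_mul_left hd0 hxy

/-- the sum of the values of the Möbius function at the divisors -/
lemma sum_moeb (n : ℕ) :
    ∑ d ∈ n.divisors, (ArithmeticFunction.moebius d : ℂ) = if n = 1 then 1 else 0 := by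
  have h1 : ∑ d ∈ n.divisors, ArithmeticFunction.moebius d = if n = 1 then 1 else 0 := by
    rw [← ArithmeticFunction.coe_mul_zeta_apply, ArithmeticFunction.moebius_mul_coe_zeta,
      ArithmeticFunction.one_apply]
  have h2 := congrArg (Int.cast : ℤ → ℂ) h1
  rw [Int.cast_sum] at h2
  rw [h2]
  split_ifs <;> simp

theorem jor : S_JOR := by
  intro m a hm
  have h1 : ∀ d ∈ m.divisors, (ArithmeticFunction.moebius d : ℂ) *
      ∑ i ∈ range (m / d), ∑ j ∈ range (m / d), a (Nat.gcd (Nat.gcd (d * i) (d * j)) m) =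
      ∑ i ∈ range m, ∑ j ∈ range m, if d ∣ Nat.gcd i j then
        (ArithmeticFunction.moebius d : ℂ) * a (Nat.gcd (Nat.gcd i j) m) else 0 := by
    intro d hd
    have hdm := Nat.dvd_of_mem_divisors hd
    have e1 : ∀ i, ∑ j ∈ range (m / d), a (Nat.gcd (Nat.gcd i (d * j)) m) =
        ∑ j ∈ range m, if d ∣ j then a (Nat.gcd (Nat.gcd i j) m) else 0 := fun i =>
      sum_mult hm hdm (fun j => a (Nat.gcd (Nat.gcd i j) m))
    have e2 := sum_mult hm hdm (fun i => ∑ j ∈ range m, if d ∣ j then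
      a (Nat.gcd (Nat.gcd i j) m) else 0)
    simp only [e1, e2]
    rw [mul_sum]
    refine sum_congr rfl fun i _ => ?_
    by_cases hi : d ∣ i
    · rw [if_pos hi, mul_sum]
      refine sum_congr rfl fun j _ => ?_
      by_cases hj : d ∣ j
      · rw [if_pos hj, if_pos (Nat.dvd_gcd hi hj)]
      · rw [if_neg hj, if_neg fun h => hj (h.trans (Nat.gcd_dvd_right i j)), mul_zero]
    · rw [if_neg hi, mul_zero]
      symm
      apply sum_eq_zero
      intro j _
      rw [if_neg fun h => hi (h.trans (Nat.gcd_dvd_left i j))]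
  rw [sum_congr rfl h1, sum_comm]
  have h2 : ∀ i j : ℕ, (∑ d ∈ m.divisors, if d ∣ Nat.gcd i j then
      (ArithmeticFunction.moebius d : ℂ) * a (Nat.gcd (Nat.gcd i j) m) else 0) =
      if Nat.gcd (Nat.gcd i j) m = 1 then a 1 else 0 := by
    intro i j
    have e1 : m.divisors.filter (fun d => d ∣ Nat.gcd i j) =
        (Nat.gcd (Nat.gcd i j) m).divisors := by
      ext d
      rw [mem_filter, Nat.mem_divisors, Nat.mem_divisors]
      constructor
      · rintro ⟨⟨h3, h4⟩, h5⟩
        exact ⟨Nat.dvd_gcd h5 h3, Nat.gcd_ne_zero_right h4⟩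
      · rintro ⟨h3, -⟩
        exact ⟨⟨h3.trans (Nat.gcd_dvd_right _ _), hm.ne'⟩, h3.trans (Nat.gcd_dvd_left _ _)⟩
    rw [← sum_filter, e1, ← sum_mul, sum_moeb]
    split_ifs with h
    · rw [h, one_mul]
    · rw [zero_mul]
  have h3 : ∀ i ∈ range m, (∑ d ∈ m.divisors, ∑ j ∈ range m, if d ∣ Nat.gcd i j then
      (ArithmeticFunction.moebius d : ℂ) * a (Nat.gcd (Nat.gcd i j) m) else 0) =
      ∑ j ∈ range m, if Nat.gcd (Nat.gcd i j) m = 1 then a 1 else 0 := by
    intro i _
    rw [sum_comm]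
    exact sum_congr rfl fun j _ => h2 i j
  rw [sum_congr rfl h3, Finset.sum_range]
  simp only [Finset.sum_range]
  rw [← Fintype.sum_prod_type' (f := fun i j : Fin m =>
    if Nat.gcd (Nat.gcd (i : ℕ) (j : ℕ)) m = 1 then a 1 else 0), ← sum_filter, sum_const,
    nsmul_eq_mul]
  congr 2
  unfold jordan2
  rw [Nat.card_eq_fintype_card, Fintype.card_subtype]

end Pool.Agent.Y983.DP

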